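import Mathlib

namespace Pool.Agent.Results.MP_4402c4_co.Counter
open List Filter Topology

/-- the block of length `n` of `u` starting at position `i` -/
def blk {A : Type} (u : ℕ → A) (i n : ℕ) : List A := (List.range n).map (fun j => u (i + j))
/-- `w` is a factor of `u` -/
def Factor {A : Type} (u : ℕ → A) (w : List A) : Prop := ∃ i, w = blk u i w.length
/-- factor complexity -/
noncomputable def fc {A : Type} (u : ℕ → A) (n : ℕ) : ℕ :=
  {w : List A | w.length = n ∧ Factor u w}.ncard
/-- palindromic complexity -/
noncomputable def pc {A : Type} (u : ℕ → A) (n : ℕ) : ℕ :=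
  {w : List A | w.length = n ∧ Factor u w ∧ w.reverse = w}.ncard
/-- the function `T` -/
noncomputable def T {A : Type} (u : ℕ → A) (n : ℕ) : ℤ :=
  (fc u (n + 1) : ℤ) - fc u n + 2 - pc u (n + 1) - pc u n
/-- defect of a finite word -/
noncomputable def dfin {A : Type} (w : List A) : ℤ :=
  (w.length : ℤ) + 1 - ({v : List A | v <:+: w ∧ v.reverse = v}.ncard : ℤ)
/-- defect of an infinite word -/
noncomputable def dinf {A : Type} (u : ℕ → A) : EReal := ⨆ n, (((dfin (blk u 0 n) : ℤ) : ℝ) : EReal)

/-- the finite approximations -/
def U : ℕ → List (Fin 3)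
  | 0 => []
  | m + 1 => U m ++ replicate ((U m).length + 10) 0 ++ replicate ((U m).length + 10) 1 ++
      replicate ((U m).length + 10) 2 ++ U m

/-- the limit word -/
def u (n : ℕ) : Fin 3 := (U (n + 1)).getD n 0

lemma len_succ (m : ℕ) : (U (m + 1)).length = 5 * (U m).length + 30 := by
  simp [U]; omega

lemma len_ge (m : ℕ) : m ≤ (U m).length := by
  induction m with
  | zero => simp
  | succ m ih => rw [len_succ]; omega

lemma len_mono {m k : ℕ} (h : m ≤ k) : (U m).length ≤ (U k).length := by
  induction h with
  | refl => exact le_rfl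
  | step _ ih => rw [len_succ]; omega

lemma pre {m k : ℕ} (h : m ≤ k) : U m <+: U k := by
  induction h with
  | refl => exact prefix_rfl
  | step _ ih => exact ih.trans (by simp only [U, append_assoc]; exact prefix_append _ _)

lemma u_eq (m n : ℕ) (h : n < (U m).length) : u n = (U m)[n] := by
  have h1 : n < (U (n + 1)).length := len_ge (n + 1)
  unfold u
  rw [getD_eq_getElem _ _ h1]
  rcases le_total m (n + 1) with e | e
  · exact ((pre e).getElem h).symm
  · exact (pre e).getElem h1

lemma blk_len {A : Type} (v : ℕ → A) (i n : ℕ) : (blk v i n).length = n := by simp [blk]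

lemma occ (m : ℕ) (s w t : List (Fin 3)) (h : s ++ w ++ t = U m) :
    w = blk u s.length w.length := by
  apply ext_getElem (by rw [blk_len])
  intro j h1 h2
  have hl : s.length + j < (U m).length := by rw [← h]; simp; omega
  simp only [blk, getElem_map, getElem_range]
  rw [u_eq m _ hl]
  simp only [← h]
  rw [getElem_append_left (by simp; omega), getElem_append_right (by omega)]
  simp

lemma factor_iff (w : List (Fin 3)) : Factor u w ↔ ∃ m, w <:+: U m := by
  constructor
  · rintro ⟨i, hi⟩
    refine ⟨i + w.length, ?_⟩
    have hl := len_ge (i + w.length)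
    have : w = ((U (i + w.length)).drop i).take w.length := by
      apply ext_getElem (by simp; omega)
      intro j h1 h2
      rw [getElem_take, getElem_drop, ← u_eq]
      simp only [getElem_of_eq hi h1]
      simp [blk]
    have h2 := (take_prefix w.length _).isInfix.trans (drop_suffix i (U (i + w.length))).isInfix
    rwa [← this] at h2
  · rintro ⟨m, s, t, h⟩
    exact ⟨_, occ m s w t h⟩

lemma split3 {A : Type} (w x y z : List A) (h : w <:+: x ++ y ++ z) (hl : w.length ≤ y.length) :
    w <:+: x ++ y ∨ w <:+: y ++ z := by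
  obtain ⟨s, t, h⟩ := h
  by_cases c : (s ++ w).length ≤ (x ++ y).length
  · left
    have : s ++ w <+: x ++ y :=
      prefix_of_prefix_length_le (h ▸ prefix_append _ _) (prefix_append _ _) c
    exact (suffix_append s w).isInfix.trans this.isInfix
  · right
    have hlen := congrArg length h
    simp only [length_append] at c hlen
    have : w ++ t <:+ y ++ z :=
      suffix_of_suffix_length_le (l₃ := x ++ y ++ z) (by rw [← h, append_assoc]; exact suffix_append _ _)
        (by rw [append_assoc]; exact suffix_append _ _) (by simp; omega)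
    exact (prefix_append w t).isInfix.trans this.isInfix

lemma shrinkL {A : Type} (w z : List A) (a : A) (N k : ℕ) (hl : w.length ≤ N)
    (h : w <:+: replicate (N + k) a ++ z) : w <:+: replicate N a ++ z := by
  induction k with
  | zero => exact h
  | succ k ih =>
    apply ih
    rw [← add_assoc, replicate_succ, ← singleton_append] at h
    rcases split3 w _ _ _ h (by simp; omega) with e | e
    · have : w <+: replicate (N + k) a := by
        rw [singleton_append, ← replicate_succ] at e
        rw [prefix_replicate_iff]
        exact ⟨by omega, (infix_replicate_iff.1 e).2⟩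
      exact this.isInfix.trans (prefix_append _ _).isInfix
    · exact e

lemma shrinkR {A : Type} (w z : List A) (a : A) (N k : ℕ) (hl : w.length ≤ N)
    (h : w <:+: z ++ replicate (N + k) a) : w <:+: z ++ replicate N a := by
  rw [← reverse_infix, reverse_append, reverse_replicate] at h ⊢
  exact shrinkL _ _ a N k (by simpa using hl) h

lemma cover (m d : ℕ) (w : List (Fin 3)) (N : ℕ) (hN : N = (U m).length + 10) (hl : w.length ≤ N)
    (h : w <:+: replicate N 2 ++ U (m + d) ++ replicate N 0) :
    w <:+: replicate N 0 ++ replicate N 1 ∨ w <:+: replicate N 1 ++ replicate N 2 ∨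
      w <:+: replicate N 2 ++ U m ++ replicate N 0 := by
  induction d with
  | zero => exact Or.inr (Or.inr h)
  | succ d ih =>
    obtain ⟨k, hk⟩ : ∃ k, (U (m + d)).length + 10 = N + k :=
      ⟨(U (m + d)).length + 10 - N, by have := len_mono (Nat.le_add_right m d); omega⟩
    rw [← add_assoc, U, hk] at h
    have h1 : w <:+: (replicate N 2 ++ U (m + d)) ++ replicate (N + k) 0 ++
      (replicate (N + k) 1 ++ replicate (N + k) 2 ++ U (m + d) ++ replicate N 0) := by
      simpa only [append_assoc] using h
    rcases split3 _ _ _ _ h1 (by simp; omega) with e | e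
    · exact ih (shrinkR _ _ _ _ _ hl e)
    have h2 : w <:+: replicate (N + k) 0 ++ replicate (N + k) 1 ++
      (replicate (N + k) 2 ++ U (m + d) ++ replicate N 0) := by
      simpa only [append_assoc] using e
    rcases split3 _ _ _ _ h2 (by simp; omega) with e | e
    · exact Or.inl (shrinkR _ _ _ _ _ hl (shrinkL _ _ _ _ _ hl e))
    have h3 : w <:+: replicate (N + k) 1 ++ replicate (N + k) 2 ++
      (U (m + d) ++ replicate N 0) := by
      simpa only [append_assoc] using e
    rcases split3 _ _ _ _ h3 (by simp; omega) with e | e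
    · exact Or.inr (Or.inl (shrinkR _ _ _ _ _ hl (shrinkL _ _ _ _ _ hl e)))
    · exact ih (by simpa only [append_assoc] using shrinkL _ _ _ _ _ hl e)

lemma infix_card (X : List (Fin 3)) (N : ℕ) :
    {w : List (Fin 3) | w.length = N ∧ w <:+: X}.ncard ≤ X.length - N + 1 := by
  have : {w : List (Fin 3) | w.length = N ∧ w <:+: X} ⊆
      ((Finset.range (X.length - N + 1)).image (fun i => (X.drop i).take N) : Finset _) := by
    rintro w ⟨hl, s, t, rfl⟩
    simp only [Finset.coe_image, Finset.coe_range, Set.mem_image, Set.mem_Iio]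
    exact ⟨s.length, by simp; omega, by simp [← hl]⟩
  refine (Set.ncard_le_ncard this (Finset.finite_toSet _)).trans ?_
  rw [Set.ncard_coe_finset]
  exact Finset.card_image_le.trans (by simp)

lemma fc_le (m : ℕ) : fc u ((U m).length + 10) ≤ 4 * (U m).length + 33 := by
  set N := (U m).length + 10 with hN
  have fin : ∀ X : List (Fin 3), {w : List (Fin 3) | w.length = N ∧ w <:+: X}.Finite :=
    fun X => (finite_length_eq _ N).subset fun w hw => hw.1
  have : {w : List (Fin 3) | w.length = N ∧ Factor u w} ⊆
      {w | w.length = N ∧ w <:+: replicate N 0 ++ replicate N 1} ∪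
      ({w | w.length = N ∧ w <:+: replicate N 1 ++ replicate N 2} ∪
      {w | w.length = N ∧ w <:+: replicate N 2 ++ U m ++ replicate N 0}) := by
    rintro w ⟨hl, hw⟩
    obtain ⟨k, hk⟩ := (factor_iff w).1 hw
    have := cover m k w N hN hl.le
      ((hk.trans (pre (Nat.le_add_left k m)).isInfix).trans (infix_append _ _ _))
    simp only [Set.mem_union, Set.mem_setOf_eq]
    tauto
  have h1 := Set.ncard_le_ncard this ((fin _).union ((fin _).union (fin _)))
  have h2 := infix_card (replicate N 0 ++ replicate N 1) N
  have h3 := infix_card (replicate N 1 ++ replicate N 2) N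
  have h4 := infix_card (replicate N 2 ++ U m ++ replicate N 0) N
  have h5 := h1.trans ((Set.ncard_union_le _ _).trans (Nat.add_le_add_left (Set.ncard_union_le _ _) _))
  simp only [length_append, length_replicate] at h2 h3 h4
  unfold fc
  omega

lemma rep_factor (n : ℕ) (a : Fin 3) : Factor u (replicate n a) := by
  rw [factor_iff]
  refine ⟨n + 1, ?_⟩
  have h : replicate n a <:+: replicate ((U n).length + 10) a := by
    rw [infix_replicate_iff]; have := len_ge n; simp; omega
  refine h.trans ?_
  fin_cases a
  · exact ⟨U n, replicate ((U n).length + 10) 1 ++ replicate ((U n).length + 10) 2 ++ U n,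
      by simp [U]⟩
  · exact ⟨U n ++ replicate ((U n).length + 10) 0, replicate ((U n).length + 10) 2 ++ U n,
      by simp [U]⟩
  · exact ⟨U n ++ replicate ((U n).length + 10) 0 ++ replicate ((U n).length + 10) 1, U n,
      by simp [U]⟩

lemma pc_ge (n : ℕ) : 3 ≤ pc u (n + 1) := by
  have : (fun a : Fin 3 => replicate (n + 1) a) '' Set.univ ⊆
      {w : List (Fin 3) | w.length = n + 1 ∧ Factor u w ∧ w.reverse = w} := by
    rintro _ ⟨a, -, rfl⟩
    exact ⟨by simp, rep_factor _ a, by simp⟩
  have h := Set.ncard_le_ncard this ((finite_length_eq _ (n + 1)).subset fun w hw => hw.1)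
  rw [Set.ncard_image_of_injective _ (replicate_right_injective (by omega))] at h
  simpa [Set.ncard_univ, pc] using h

lemma sum_le (n : ℕ) : ∑ i ∈ Finset.range (n + 1), T u i ≤ (fc u (n + 1) : ℤ) - 4 * n := by
  induction n with
  | zero =>
    have : 3 ≤ pc u 1 := pc_ge 0
    simp [T]; omega
  | succ n ih =>
    rw [Finset.sum_range_succ]
    have h1 := pc_ge n
    have h2 := pc_ge (n + 1)
    unfold T at ih ⊢
    push_cast; omega

/-- allowed transitions -/
def ok (a b : Fin 3) : Prop := b = a ∨ b = a + 1

lemma chain (m : ℕ) : List.IsChain ok (2 :: U m ++ [0]) := by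
  induction m with
  | zero => simp [U, ok]
  | succ m ih =>
    have rep : ∀ (a : Fin 3) (n : ℕ) (l : List (Fin 3)), List.IsChain ok (a :: l) →
        List.IsChain ok (a :: (replicate n a ++ l)) := by
      intro a n l h
      induction n with
      | zero => exact h
      | succ n ihn => rw [replicate_succ, cons_append]; exact ihn.cons_cons (Or.inl rfl)
    have e : 2 :: U (m + 1) ++ [0] = (2 :: U m) ++ 0 :: (replicate ((U m).length + 9) 0 ++
        1 :: (replicate ((U m).length + 9) 1 ++ (replicate ((U m).length + 9) 2 ++ 2 :: U m ++ [0]))) := by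
      simp only [U, cons_append, append_assoc]
      rw [replicate_succ (a := (0 : Fin 3)), replicate_succ (a := (1 : Fin 3)),
        replicate_succ' (a := (2 : Fin 3))]
      simp
    rw [e, isChain_split]
    refine ⟨ih, rep 0 _ _ (List.IsChain.cons_cons (Or.inr rfl) (rep 1 _ _ ?_))⟩
    have := rep 2 ((U m).length + 8) _ (ih.cons_cons (Or.inl rfl))
    rw [replicate_succ]
    simp only [cons_append, append_assoc] at this ⊢
    exact this.cons_cons (Or.inr rfl)

theorem result : ∃ v : ℕ → Fin 3,
    (∀ w, Factor v w → {i | w = blk v i w.length}.Infinite) ∧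
    {w | Factor v w ∧ w.reverse = w}.Infinite ∧
    (∃ w, Factor v w ∧ ¬ Factor v w.reverse) ∧
    ¬ Tendsto (fun N => (((∑ n ∈ Finset.range N, T v n : ℤ) : ℝ) : EReal)) atTop
      (𝓝 (2 * dinf v)) := by
  refine ⟨u, ?_, ?_, ?_, ?_⟩
  · intro w hw
    obtain ⟨m, hm⟩ := (factor_iff w).1 hw
    apply Set.infinite_of_forall_exists_gt
    intro b
    obtain ⟨s, t, h⟩ := hm.trans (pre (Nat.le_add_right m b)).isInfix
    have hb := len_ge (m + b)
    refine ⟨_, occ (m + b + 1) (U (m + b) ++ replicate ((U (m + b)).length + 10) 0 ++
      replicate ((U (m + b)).length + 10) 1 ++ replicate ((U (m + b)).length + 10) 2 ++ s) w t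
      (by rw [U, append_assoc _ s, append_assoc _ (s ++ w), h]), ?_⟩
    simp; omega
  · apply Set.infinite_of_injective_forall_mem (f := fun n => replicate n (0 : Fin 3))
      (replicate_left_injective 0)
    intro n; exact ⟨rep_factor n 0, by simp⟩
  · refine ⟨[0, 1], (factor_iff _).2 ⟨1, by decide⟩, fun h => ?_⟩
    obtain ⟨m, hm⟩ := (factor_iff _).1 h
    obtain ⟨s, t, e⟩ := hm.trans (infix_append [2] _ [0])
    have h2 := chain m
    rw [← singleton_append, ← e] at h2
    have h1 : List.IsChain ok [1, 0] := h2.left_of_append.right_of_append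
    simp [ok] at h1
  · intro h
    have h0 : (0 : EReal) ≤ dinf u := by
      refine le_trans ?_ (le_iSup _ 0)
      have : {v : List (Fin 3) | v <:+: [] ∧ v.reverse = v} = {[]} := by
        ext v; simp; rintro rfl; rfl
      have e : blk u 0 0 = [] := rfl
      rw [e, dfin, this]; simp
    have h1 : ((-1 : ℝ) : EReal) < 2 * dinf u :=
      lt_of_lt_of_le (by exact_mod_cast (by norm_num : (-1 : ℝ) < 0))
        (mul_nonneg (by norm_num) h0)
    obtain ⟨M, hM⟩ := eventually_atTop.1 (h.eventually (lt_mem_nhds h1))
    have h2 := hM ((U M).length + 10) (by have := len_ge M; omega)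
    have h3 := sum_le ((U M).length + 9)
    rw [add_assoc, show 9 + 1 = 10 from rfl] at h3
    have h4 := fc_le M
    have h5 : (-1 : ℤ) < ∑ n ∈ Finset.range ((U M).length + 10), T u n := by
      have := EReal.coe_lt_coe_iff.1 h2
      exact_mod_cast this
    push_cast at h3
    omega

end Pool.Agent.Results.MP_4402c4_co.Counter
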